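import Mathlib

/-!
# [AAE] G2: the residues `x` with `x ^ 2 - D = s * y ^ 2`

For an odd prime `p` and `s, D ≠ 0` at most `(p + 4) / 2` residues `x` are the first coordinate of a point of the conic
`x ^ 2 - s * y ^ 2 = D`: the conic has at most `p + 2` points (secants through one point), and all but at most two of the `x`
belong to two points.
-/

set_option autoImplicit false

namespace Pool.Agent.Helper58.AAE

variable {p : ℕ} [Fact p.Prime]

/-- The points of the conic. -/
def pts (s D : ZMod p) : Finset (ZMod p × ZMod p) :=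
  Finset.univ.filter fun q => q.1 ^ 2 - D = s * q.2 ^ 2

theorem mem_pts {s D : ZMod p} {q : ZMod p × ZMod p} : q ∈ pts s D ↔ q.1 ^ 2 - D = s * q.2 ^ 2 := by
  simp [pts]

theorem sq_eq_card (a : ZMod p) : (Finset.univ.filter fun y : ZMod p => y ^ 2 = a).card ≤ 2 := by
  classical
  rcases (Finset.univ.filter fun y : ZMod p => y ^ 2 = a).eq_empty_or_nonempty with h | ⟨y0, h⟩
  · rw [h]; simp
  · have h0 : y0 ^ 2 = a := (Finset.mem_filter.1 h).2
    have hsub : (Finset.univ.filter fun y : ZMod p => y ^ 2 = a) ⊆ {y0, -y0} := by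
      intro y hy
      have h1 : y ^ 2 = y0 ^ 2 := by rw [(Finset.mem_filter.1 hy).2, h0]
      rcases sq_eq_sq_iff_eq_or_eq_neg.1 h1 with h2 | h2
      · rw [h2]; simp
      · rw [h2]; simp
    exact (Finset.card_le_card hsub).trans Finset.card_le_two

theorem two_ne (hp : p ≠ 2) : (2 : ZMod p) ≠ 0 := by
  intro h
  have h1 : ((2 : ℕ) : ZMod p) = 0 := by exact_mod_cast h
  rw [ZMod.natCast_eq_zero_iff] at h1
  exact hp ((Nat.prime_dvd_prime_iff_eq (Fact.out : p.Prime) Nat.prime_two).1 h1)

theorem pts_card (hp : p ≠ 2) (s D : ZMod p) (hs : s ≠ 0) (hD : D ≠ 0) : (pts s D).card ≤ p + 2 := by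
  classical
  have h20 : (2 : ZMod p) ≠ 0 := two_ne hp
  rcases (pts s D).eq_empty_or_nonempty with h | ⟨q0, h⟩
  · rw [h]; simp
  · have h0 := mem_pts.1 h
    obtain ⟨x0, y0⟩ := q0
    change x0 ^ 2 - D = s * y0 ^ 2 at h0
    have hsplit : (pts s D).card = ((pts s D).filter fun q => q.1 = x0).card +
        ((pts s D).filter fun q => ¬ q.1 = x0).card :=
      (Finset.card_filter_add_card_filter_not _).symm
    have hA : ((pts s D).filter fun q => q.1 = x0).card ≤ 2 := by
      refine le_trans ?_ (sq_eq_card (y0 ^ 2))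
      refine Finset.card_le_card_of_injOn (fun q => q.2) ?_ ?_
      · intro q hq
        rw [Finset.mem_coe, Finset.mem_filter] at hq
        rw [Finset.mem_coe, Finset.mem_filter]
        refine ⟨Finset.mem_univ _, ?_⟩
        have h1 := mem_pts.1 hq.1
        rw [hq.2, h0] at h1
        exact (mul_left_cancel₀ hs h1).symm
      · intro q hq q' hq' hqq
        rw [Finset.mem_coe, Finset.mem_filter] at hq hq'
        exact Prod.ext (hq.2.trans hq'.2.symm) hqq
    have hB : ((pts s D).filter fun q => ¬ q.1 = x0).card ≤ p := by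
      have hcard : (Finset.univ : Finset (ZMod p)).card = p := by rw [Finset.card_univ, ZMod.card]
      refine le_trans (Finset.card_le_card_of_injOn (t := (Finset.univ : Finset (ZMod p)))
        (fun q => (q.2 - y0) / (q.1 - x0)) (fun q _ => Finset.mem_coe.2 (Finset.mem_univ _)) ?_) hcard.le
      -- the equation of the second point on the secant of slope `m`
      have key : ∀ q ∈ (pts s D).filter fun q => ¬ q.1 = x0, ∀ m, (q.2 - y0) / (q.1 - x0) = m →
          1 - s * m ^ 2 ≠ 0 ∧ (q.1 - x0) * (1 - s * m ^ 2) = 2 * s * y0 * m - 2 * x0 ∧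
            q.2 - y0 = m * (q.1 - x0) := by
        intro q hq m hm
        rw [Finset.mem_filter] at hq
        have hu : q.1 - x0 ≠ 0 := sub_ne_zero.2 hq.2
        have h1 := mem_pts.1 hq.1
        have h2 : q.2 - y0 = m * (q.1 - x0) := by rw [← hm, div_mul_cancel₀ _ hu]
        have h3 : (q.1 - x0) * (1 - s * m ^ 2) = 2 * s * y0 * m - 2 * x0 := by
          have h4 : q.2 = y0 + m * (q.1 - x0) := by rw [← h2]; ring
          rw [h4] at h1
          refine mul_left_cancel₀ hu ?_
          linear_combination h1 - h0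
        refine ⟨?_, h3, h2⟩
        intro h4
        rw [h4, mul_zero] at h3
        -- `s y0 m = x0`, hence `D = 0`
        have h5 : x0 = s * y0 * m := by
          refine mul_left_cancel₀ h20 ?_
          linear_combination h3
        refine hD ?_
        linear_combination (-1 : ZMod p) * h0 + (x0 + s * y0 * m) * h5 - s * y0 ^ 2 * h4
      intro q hq q' hq' hqq
      obtain ⟨a1, a2, a3⟩ := key q hq _ rfl
      obtain ⟨b1, b2, b3⟩ := key q' hq' ((q.2 - y0) / (q.1 - x0)) hqq.symm
      have hx : q.1 - x0 = q'.1 - x0 := by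
        refine mul_right_cancel₀ a1 ?_
        rw [a2, b2]
      have hx' : q.1 = q'.1 := sub_left_injective hx
      refine Prod.ext hx' ?_
      have hy : q.2 - y0 = q'.2 - y0 := by rw [a3, b3, hx]
      exact sub_left_injective hy
    omega

theorem conic_card (hp : p ≠ 2) (s D : ZMod p) (hs : s ≠ 0) (hD : D ≠ 0) :
    2 * (Finset.univ.filter fun x : ZMod p => ∃ y, x ^ 2 - D = s * y ^ 2).card ≤ p + 4 := by
  classical
  set A := Finset.univ.filter fun x : ZMod p => ∃ y, x ^ 2 - D = s * y ^ 2 with hA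
  set Z := Finset.univ.filter fun x : ZMod p => x ^ 2 = D with hZ
  have hZc : Z.card ≤ 2 := sq_eq_card D
  have h20 : (2 : ZMod p) ≠ 0 := two_ne hp
  have hch : ∀ x : ZMod p, ∃ y : ZMod p, x ∈ A → x ^ 2 - D = s * y ^ 2 := by
    intro x
    by_cases hx : x ∈ A
    · obtain ⟨y, hy⟩ := (Finset.mem_filter.1 hx).2
      exact ⟨y, fun _ => hy⟩
    · exact ⟨0, fun h => absurd h hx⟩
  choose f hf using hch
  have h1 : (A.image fun x => (x, f x)).card = A.card :=
    Finset.card_image_of_injective _ fun a b hab => (Prod.ext_iff.1 hab).1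
  have h2 : ((A \ Z).image fun x => (x, -f x)).card = (A \ Z).card :=
    Finset.card_image_of_injective _ fun a b hab => (Prod.ext_iff.1 hab).1
  have hdis : Disjoint (A.image fun x => (x, f x)) ((A \ Z).image fun x => (x, -f x)) := by
    rw [Finset.disjoint_left]
    intro q hq hq'
    obtain ⟨a, ha, rfl⟩ := Finset.mem_image.1 hq
    obtain ⟨b, hb, hab⟩ := Finset.mem_image.1 hq'
    obtain ⟨e1, e2⟩ := Prod.ext_iff.1 hab
    change b = a at e1
    change -f b = f a at e2
    subst e1
    rw [Finset.mem_sdiff] at hb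
    have h3 : f b = 0 := by
      have h4 : (2 : ZMod p) * f b = 0 := by linear_combination -e2
      exact (mul_eq_zero.1 h4).resolve_left h20
    refine hb.2 (Finset.mem_filter.2 ⟨Finset.mem_univ _, ?_⟩)
    have h5 := hf b ha
    rw [h3] at h5
    linear_combination h5
  have hsub : (A.image fun x => (x, f x)) ∪ ((A \ Z).image fun x => (x, -f x)) ⊆ pts s D := by
    intro q hq
    rw [Finset.mem_union, Finset.mem_image, Finset.mem_image] at hq
    rw [mem_pts]
    rcases hq with ⟨a, ha, rfl⟩ | ⟨a, ha, rfl⟩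
    · exact hf a ha
    · have h3 := hf a (Finset.mem_sdiff.1 ha).1
      change a ^ 2 - D = s * (-f a) ^ 2
      rw [h3]; ring
  have h3 := Finset.card_le_card hsub
  rw [Finset.card_union_of_disjoint hdis, h1, h2] at h3
  have h4 := pts_card hp s D hs hD
  have h5 : A.card ≤ (A \ Z).card + Z.card := by
    have h6 := Finset.card_le_card (Finset.subset_union_left (s₁ := A) (s₂ := Z))
    have h7 : A ∪ Z = (A \ Z) ∪ Z := by rw [Finset.sdiff_union_self_eq_union]
    rw [h7] at h6
    exact h6.trans (Finset.card_union_le _ _)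
  omega

end Pool.Agent.Helper58.AAE

namespace Pool.Agent.Helper86.XE

/-- The integer form of the skeleton. -/
theorem conic_residues {p : ℕ} (hp : p.Prime) (D s : ℤ) (hp2 : ¬ (p : ℤ) ∣ 2 * s * D) (A : Finset ℤ)
    (hA : ∀ x ∈ A, ∃ y : ℤ, x ^ 2 - D = s * y ^ 2) :
    ((A.image fun x : ℤ => x % (p : ℤ)).card : ℝ) ≤ ((p : ℝ) + 5) / 2 := by
  classical
  have : Fact p.Prime := ⟨hp⟩
  have hp3 : p ≠ 2 := by
    rintro rfl
    exact hp2 (Dvd.dvd.mul_right (Dvd.dvd.mul_right (by norm_num) _) _)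
  have hs : ((s : ℤ) : ZMod p) ≠ 0 := by
    intro h
    rw [ZMod.intCast_zmod_eq_zero_iff_dvd] at h
    exact hp2 (Dvd.dvd.mul_right (Dvd.dvd.mul_left h _) _)
  have hD : ((D : ℤ) : ZMod p) ≠ 0 := by
    intro h
    rw [ZMod.intCast_zmod_eq_zero_iff_dvd] at h
    exact hp2 (Dvd.dvd.mul_left h _)
  have h1 := Pool.Agent.Helper58.AAE.conic_card hp3 (s : ZMod p) (D : ZMod p) hs hD
  have h2 : (A.image fun x : ℤ => x % (p : ℤ)).card ≤
      (Finset.univ.filter fun x : ZMod p => ∃ y, x ^ 2 - (D : ZMod p) = (s : ZMod p) * y ^ 2).card := by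
    refine Finset.card_le_card_of_injOn (fun x : ℤ => (x : ZMod p)) ?_ ?_
    · intro x hx
      rw [Finset.mem_coe, Finset.mem_image] at hx
      obtain ⟨a, ha, rfl⟩ := hx
      obtain ⟨y, hy⟩ := hA a ha
      rw [Finset.mem_coe, Finset.mem_filter]
      refine ⟨Finset.mem_univ _, (y : ZMod p), ?_⟩
      change (((a % (p : ℤ) : ℤ) : ZMod p)) ^ 2 - (D : ZMod p) = (s : ZMod p) * (y : ZMod p) ^ 2
      rw [ZMod.intCast_mod]
      exact_mod_cast congrArg (Int.cast : ℤ → ZMod p) hy
    · intro x hx x' hx' hxx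
      rw [Finset.mem_coe, Finset.mem_image] at hx hx'
      obtain ⟨a, ha, rfl⟩ := hx
      obtain ⟨b, hb, rfl⟩ := hx'
      change (((a % (p : ℤ) : ℤ) : ZMod p)) = (((b % (p : ℤ) : ℤ) : ZMod p)) at hxx
      rw [ZMod.intCast_mod, ZMod.intCast_mod, ZMod.intCast_eq_intCast_iff'] at hxx
      exact hxx
  have h3 : 2 * (A.image fun x : ℤ => x % (p : ℤ)).card ≤ p + 4 := by omega
  have h4 : (2 : ℝ) * ((A.image fun x : ℤ => x % (p : ℤ)).card : ℝ) ≤ (p : ℝ) + 4 := by exact_mod_cast h3
  linarith

end Pool.Agent.Helper86.XE
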